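import Pool.Agent.H929.BW.Stm

/-!
# BW: the numerical conditions
-/

set_option autoImplicit false

namespace Pool.Agent.H929.BW

theorem num_pow_sub (n : ℕ) {a b : ℝ} (ha : 0 ≤ a) (hab : a ≤ b) :
    (b - a) * b ^ n ≤ b ^ (n + 1) - a ^ (n + 1) := by
  have h : a ^ n ≤ b ^ n := pow_le_pow_left₀ ha hab n
  have h2 := mul_le_mul_of_nonneg_left h ha
  rw [pow_succ, pow_succ]
  linarith

/-- `(g + Λ) ^ N / g` -/
theorem num_quot (n : ℕ) {g L ρ K c : ℝ} (hg : 1 ≤ g) (hL : 0 ≤ L)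
    (h1 : L ≤ K * ρ * g) (h2 : 1 ≤ K * ρ) (h3 : 1 + L ≤ c) :
    (g + L) ^ (n + 1) ≤ g * ((2 * K) ^ n * c * (ρ * g) ^ n) := by
  have hg0 : 0 < g := by linarith
  have h4 : g + L ≤ (2 * K) * (ρ * g) := by nlinarith
  have h5 : g + L ≤ g * c := by nlinarith
  have h6 : (g + L) ^ n ≤ ((2 * K) * (ρ * g)) ^ n := pow_le_pow_left₀ (by linarith) h4 n
  have h7 : 0 ≤ ((2 * K) * (ρ * g)) ^ n := le_trans (by positivity) h6
  calc (g + L) ^ (n + 1) = (g + L) ^ n * (g + L) := pow_succ _ _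
    _ ≤ ((2 * K) * (ρ * g)) ^ n * (g * c) := mul_le_mul h6 h5 (by linarith) h7
    _ = g * ((2 * K) ^ n * c * (ρ * g) ^ n) := by rw [mul_pow (2 * K)]; ring

theorem t_NUME : S_NUME := by
  intro n hn K hK
  obtain ⟨A, hA⟩ : ∃ A : ℝ, A = AE n := ⟨_, rfl⟩
  have hA0 : 0 < A := by rw [hA]; unfold AE; positivity
  obtain ⟨B, hB⟩ : ∃ B : ℝ, B = 3 ^ (n + 2) * 12 ^ (n + 1) * ((n + 1) * (n * (1 + n) ^ (n + 1))) *
    ((2 * (2 * K)) ^ n * 2) := ⟨_, rfl⟩
  have hB0 : 0 ≤ B := by rw [hB]; positivity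
  refine ⟨A + B, by linarith, ?_⟩
  intro m ρ g L d hm hρ hmg hgm hL hLK hd1 hd2
  have hm1 : (1 : ℝ) ≤ m := by exact_mod_cast hm
  have hn1 : (1 : ℝ) ≤ n := by exact_mod_cast hn
  have hg1 : 1 ≤ g := by linarith
  have hg0 : 0 < g := by linarith
  have hm0 : (0 : ℝ) < m := by linarith
  have hd0 : 0 ≤ d := by linarith
  have hD0 : 0 < ρ * g := by positivity
  have hdD : d ≤ ρ * g := by nlinarith
  have hL0 : 0 < L := by linarith
  -- first term
  have t1 : (A + B) * L * (ρ * g) ^ n ≤ (ρ * g) ^ (n + 1) - d ^ (n + 1) := by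
    refine le_trans ?_ (num_pow_sub n hd0 hdD)
    exact mul_le_mul_of_nonneg_right (by linarith) (by positivity)
  -- second term
  have t2 : A * L * (d / 3) ^ n ≤ A * L * (ρ * g) ^ n := by
    refine mul_le_mul_of_nonneg_left ?_ (by positivity)
    exact pow_le_pow_left₀ (by positivity) (by linarith) n
  -- third term
  have t3 : FE n m g L ≤ B * L * (ρ * g) ^ n := by
    unfold FE
    have hx : g / m ≤ 1 + n := by
      rw [div_le_iff₀ hm0]
      nlinarith
    have hx1 : 1 ≤ g / m := by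
      rw [le_div_iff₀ hm0]
      linarith
    have hx2 : g / m - 1 ≤ n * (1 + n) / g := by
      rw [le_div_iff₀ hg0]
      have e1 : g / m - 1 ≤ n / m := by
        rw [div_sub_one hm0.ne', div_le_div_iff_of_pos_right hm0]
        linarith
      have e2' : g ≤ (1 + n) * m := by nlinarith
      have e2 : n / m * g ≤ n * (1 + n) := by
        rw [div_mul_eq_mul_div, div_le_iff₀ hm0]
        have := mul_le_mul_of_nonneg_left e2' (by linarith : (0 : ℝ) ≤ n)
        linarith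
      have e3' : (g / m - 1) * g ≤ n / m * g := mul_le_mul_of_nonneg_right e1 hg0.le
      linarith
    have s1 : (g / m) ^ (n + 1) - 1 ≤ (n + 1) * (n * (1 + n) ^ (n + 1)) / g := by
      -- y ^ N - 1 ≤ N (y - 1) y ^ n
      have e3 : (g / m) ^ (n + 1) - 1 ≤ (n + 1) * (g / m - 1) * (g / m) ^ n := by
        have : ∀ y : ℝ, 1 ≤ y → ∀ k : ℕ, y ^ (k + 1) - 1 ≤ (k + 1) * (y - 1) * y ^ k := by
          intro y hy k
          induction k with
          | zero => simp
          | succ k ih =>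
            have h5 : 0 ≤ y := by linarith
            have h6 : 1 ≤ y ^ (k + 1) := one_le_pow₀ hy
            have h7 := mul_le_mul_of_nonneg_left ih h5
            have h8 : (y - 1) ≤ (y - 1) * y ^ (k + 1) := by nlinarith
            push_cast
            have h9 : y ^ (k + 1 + 1) - 1 = y * (y ^ (k + 1) - 1) + (y - 1) := by ring
            have h10 : ((k : ℝ) + 1 + 1) * (y - 1) * y ^ (k + 1) =
              y * (((k : ℝ) + 1) * (y - 1) * y ^ k) + (y - 1) * y ^ (k + 1) := by ring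
            rw [h9, h10]
            linarith
        exact this _ hx1 n
      refine e3.trans ?_
      have e4 : (g / m) ^ n ≤ (1 + n) ^ n := pow_le_pow_left₀ (by linarith) hx n
      calc (n + 1) * (g / m - 1) * (g / m) ^ n ≤ ((n + 1) * (n * (1 + n) / g)) * (1 + n) ^ n := by
            refine mul_le_mul ?_ e4 (by positivity) (by positivity)
            exact mul_le_mul_of_nonneg_left hx2 (by positivity)
        _ = _ := by ring
    have s2 : (g + L) ^ (n + 1) ≤ g * ((2 * (2 * K)) ^ n * (2 * L) * (ρ * g) ^ n) := by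
      refine num_quot n hg1 hL0.le ?_ (by nlinarith) (by linarith)
      have e5 : ρ / m ≤ ρ := div_le_self (by linarith) hm1
      have e6 : K * (1 + ρ / m) ≤ K * (2 * ρ) := mul_le_mul_of_nonneg_left (by linarith) (by linarith)
      have e7 : K * (2 * ρ) ≤ 2 * K * ρ * g := by nlinarith [mul_pos (by linarith : 0 < K) (by linarith : 0 < ρ)]
      linarith
    calc 3 ^ (n + 2) * (12 * (g + L)) ^ (n + 1) * ((g / m) ^ (n + 1) - 1)
        ≤ 3 ^ (n + 2) * (12 * (g + L)) ^ (n + 1) * ((n + 1) * (n * (1 + n) ^ (n + 1)) / g) :=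
          mul_le_mul_of_nonneg_left s1 (by positivity)
      _ = (3 ^ (n + 2) * 12 ^ (n + 1) * ((n + 1) * (n * (1 + n) ^ (n + 1)) / g)) * (g + L) ^ (n + 1) := by
          rw [mul_pow]; ring
      _ ≤ (3 ^ (n + 2) * 12 ^ (n + 1) * ((n + 1) * (n * (1 + n) ^ (n + 1)) / g)) *
          (g * ((2 * (2 * K)) ^ n * (2 * L) * (ρ * g) ^ n)) :=
          mul_le_mul_of_nonneg_left s2 (by positivity)
      _ = B * L * (ρ * g) ^ n := by
          rw [hB]
          field_simp
  rw [← hA]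
  linarith

theorem t_NUMS : S_NUMS := by
  intro n hn K hK
  obtain ⟨N, hN⟩ : ∃ N : ℝ, N = (n : ℝ) + 1 := ⟨_, rfl⟩
  have hn1 : (1 : ℝ) ≤ n := by exact_mod_cast hn
  have hN2 : 2 ≤ N := by linarith
  obtain ⟨A, hA⟩ : ∃ A : ℝ, A = 4 ^ (n + 2) * 3 ^ (n + 2) * N * (1 + 2 * N) := ⟨_, rfl⟩
  have hA0 : 0 < A := by rw [hA]; positivity
  obtain ⟨B, hB⟩ : ∃ B : ℝ, B = 3 ^ (n + 2) * 12 ^ (n + 1) * (2 * N ^ 2) *
    ((2 * (2 * (1 + 2 * N) * K)) ^ n * (2 + 2 * N)) := ⟨_, rfl⟩
  have hB0 : 0 ≤ B := by rw [hB]; positivity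
  refine ⟨18 * N + A + B, by linarith, ?_⟩
  intro m ρ g L d hm hρ hmg hgm hL hLK hd
  have hm1 : (1 : ℝ) ≤ m := by exact_mod_cast hm
  have hg1 : 1 ≤ g := by linarith
  have hg0 : 0 < g := by linarith
  have hm0 : (0 : ℝ) < m := by linarith
  have hL0 : 0 < L := by linarith
  have hD0 : 0 < ρ * g := by positivity
  have hC : 18 * N + A + B ≤ (18 * N + A + B) * L := by nlinarith
  have e0 : (n : ℝ) + 1 = N := hN.symm
  rw [e0]
  have hρg : 7 * g ≤ ρ * g := by nlinarith
  refine ⟨by linarith, ?_⟩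
  obtain ⟨x, hx⟩ : ∃ x : ℝ, x = d - 6 * N := ⟨_, rfl⟩
  have hh : d / 3 - 2 * N = x / 3 := by rw [hx]; ring
  have hxD : (A + B) * L ≤ x - ρ * g := by
    rw [hx]
    have : 6 * N ≤ 18 * N * L := by nlinarith
    linarith
  have hAB : 0 ≤ (A + B) * L := by positivity
  have hxD' : ρ * g ≤ x := by linarith
  have hx0 : 0 < x := by linarith
  have t1 : (A + B) * L * x ^ n ≤ x ^ (n + 1) - (ρ * g) ^ (n + 1) := by
    refine le_trans ?_ (num_pow_sub n hD0.le hxD')
    exact mul_le_mul_of_nonneg_right hxD (by positivity)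
  have t0 : 3 ^ (n + 1) * (d / 3 - 2 * N) ^ (n + 1) = x ^ (n + 1) := by
    rw [hh, ← mul_pow]
    congr 1
    ring
  have t2 : AS n L * (d / 3 - 2 * N) ^ n ≤ A * L * x ^ n := by
    rw [hh]
    unfold AS
    rw [e0]
    have e1 : (x / 3) ^ n ≤ x ^ n := pow_le_pow_left₀ (by positivity) (by linarith) n
    have e2 : L + 2 * N ≤ (1 + 2 * N) * L := by nlinarith
    calc 4 ^ (n + 2) * 3 ^ (n + 2) * N * (L + 2 * N) * (x / 3) ^ n
        ≤ (4 ^ (n + 2) * 3 ^ (n + 2) * N * ((1 + 2 * N) * L)) * x ^ n := by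
          refine mul_le_mul ?_ e1 (by positivity) (by positivity)
          exact mul_le_mul_of_nonneg_left e2 (by positivity)
      _ = A * L * x ^ n := by rw [hA]; ring
  have t3 : FS n m g L ≤ B * L * x ^ n := by
    unfold FS
    rw [e0]
    have hmN : 0 < (m : ℝ) + 2 * N := by linarith
    have hgN : g ≤ m + 2 * N := by linarith
    have hu0 : 0 ≤ g / (m + 2 * N) := by positivity
    have hu1 : g / (m + 2 * N) ≤ 1 := by
      rw [div_le_one hmN]
      exact hgN
    have s1 : 1 - (g / (m + 2 * N)) ^ (n + 1) ≤ 2 * N ^ 2 / g := by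
      have e3 : 1 + ((n + 1 : ℕ) : ℝ) * (g / (m + 2 * N) - 1) ≤
          (1 + (g / (m + 2 * N) - 1)) ^ (n + 1) := by
        apply one_add_mul_le_pow
        linarith
      have e4 : (1 + (g / (m + 2 * N) - 1)) = g / (m + 2 * N) := by ring
      rw [e4] at e3
      push_cast at e3
      rw [e0] at e3
      have e5 : 1 - g / (m + 2 * N) ≤ 2 * N / g := by
        rw [one_sub_div hmN.ne', div_le_div_iff₀ hmN hg0]
        have e6 : (m : ℝ) + 2 * N - g ≤ 2 * N := by linarith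
        have e7 : ((m : ℝ) + 2 * N - g) * g ≤ 2 * N * g := mul_le_mul_of_nonneg_right e6 hg0.le
        have e8 : 2 * N * g ≤ 2 * N * (m + 2 * N) := mul_le_mul_of_nonneg_left hgN (by linarith)
        linarith
      have e9 : N * (1 - g / (m + 2 * N)) ≤ N * (2 * N / g) := mul_le_mul_of_nonneg_left e5 (by linarith)
      have e10 : N * (2 * N / g) = 2 * N ^ 2 / g := by ring
      rw [e10] at e9
      linarith
    have s2 : (g + (L + 2 * N)) ^ (n + 1) ≤
        g * ((2 * (2 * (1 + 2 * N) * K)) ^ n * ((2 + 2 * N) * L) * (ρ * g) ^ n) := by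
      refine num_quot n hg1 (by linarith) ?_ ?_ ?_
      · have e5 : ρ / m ≤ ρ := div_le_self (by linarith) hm1
        have e6 : K * (1 + ρ / m) ≤ K * (2 * ρ) := mul_le_mul_of_nonneg_left (by linarith) (by linarith)
        have hKρ : 0 < K * ρ := by positivity
        have e7 : L ≤ 2 * (K * ρ) := by linarith
        have e8 : L + 2 * N ≤ (1 + 2 * N) * L := by nlinarith
        have e9 : (1 + 2 * N) * L ≤ (1 + 2 * N) * (2 * (K * ρ)) :=
          mul_le_mul_of_nonneg_left e7 (by linarith)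
        have e10 : (1 + 2 * N) * (2 * (K * ρ)) * 1 ≤ (1 + 2 * N) * (2 * (K * ρ)) * g :=
          mul_le_mul_of_nonneg_left hg1 (by positivity)
        linarith
      · have hKρ : 1 ≤ K * ρ := by nlinarith
        nlinarith
      · nlinarith
    calc 3 ^ (n + 2) * (12 * (g + L + 2 * N)) ^ (n + 1) * (1 - (g / (m + 2 * N)) ^ (n + 1))
        ≤ 3 ^ (n + 2) * (12 * (g + L + 2 * N)) ^ (n + 1) * (2 * N ^ 2 / g) :=
          mul_le_mul_of_nonneg_left s1 (by positivity)
      _ = (3 ^ (n + 2) * 12 ^ (n + 1) * (2 * N ^ 2 / g)) * (g + (L + 2 * N)) ^ (n + 1) := by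
          rw [mul_pow, add_assoc g]; ring
      _ ≤ (3 ^ (n + 2) * 12 ^ (n + 1) * (2 * N ^ 2 / g)) *
          (g * ((2 * (2 * (1 + 2 * N) * K)) ^ n * ((2 + 2 * N) * L) * (ρ * g) ^ n)) :=
          mul_le_mul_of_nonneg_left s2 (by positivity)
      _ = B * L * (ρ * g) ^ n := by
          rw [hB]
          field_simp
      _ ≤ B * L * x ^ n := by
          refine mul_le_mul_of_nonneg_left ?_ (by positivity)
          exact pow_le_pow_left₀ hD0.le hxD' n
  rw [t0]
  linarith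

end Pool.Agent.H929.BW
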